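import Pool.Agent.R509.CE.Seq2

/-!
Library R509.CE (helper509): the polynomials `((1 + x) / 2) ^ j`, and the products of consecutive values.
-/

set_option autoImplicit false

namespace Pool.Agent.R509.CE

open Finset
open Pool.Agent.R509.CD
open Pool.Agent.H376R2.MR (lam)

/-- the coefficients of `((1 + x) / 2) ^ j` -/
noncomputable def ch2 (j : ℕ) (i : ℕ) : ℝ := (j.choose i : ℝ) / 2 ^ j

lemma ps_half (j : ℕ) (x : ℝ) : ps (ch2 j) j x = ((1 + x) / 2) ^ j := by
  unfold ps ch2
  rw [div_pow, add_comm 1 x, add_pow, sum_div]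
  apply sum_congr rfl
  intro i _
  rw [one_pow]
  ring

lemma pow_tel (a b : ℝ) (hb : 0 ≤ b) (hab : b ≤ a) (j : ℕ) : ((j : ℝ) + 1) * (a - b) * b ^ j ≤ a ^ (j + 1) - b ^ (j + 1) := by
  induction j with
  | zero => simp
  | succ j ih =>
    have ha : 0 ≤ a := hb.trans hab
    have h1 : a ^ (j + 1 + 1) - b ^ (j + 1 + 1) = a * (a ^ (j + 1) - b ^ (j + 1)) + (a - b) * b ^ (j + 1) := by ring
    rw [h1]
    have h2 : b * (((j : ℝ) + 1) * (a - b) * b ^ j) ≤ a * (a ^ (j + 1) - b ^ (j + 1)) := by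
      refine (mul_le_mul_of_nonneg_left ih hb).trans ?_
      apply mul_le_mul_of_nonneg_right hab
      have := pow_le_pow_left₀ hb hab (j + 1)
      linarith
    push_cast
    have h3 : ((j : ℝ) + 1 + 1) * (a - b) * b ^ (j + 1) = b * (((j : ℝ) + 1) * (a - b) * b ^ j) + (a - b) * b ^ (j + 1) := by ring
    rw [h3]
    linarith

lemma half_mean (j n : ℕ) (hn : 1 ≤ n) :
    ∑ d ∈ range n, ps (ch2 j) j (1 - 2 * (d : ℝ) / n) ≤ n * (1 / (j + 1)) + 1 := by
  have hn0 : (0 : ℝ) < n := by exact_mod_cast hn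
  have h1 : ∀ d ∈ range n, ps (ch2 j) j (1 - 2 * (d : ℝ) / n) = (1 - (d : ℝ) / n) ^ j := by
    intro d _
    rw [ps_half]
    congr 1
    ring
  rw [sum_congr rfl h1]
  obtain ⟨m, rfl⟩ : ∃ m, n = m + 1 := ⟨n - 1, by omega⟩
  rw [sum_range_succ']
  set u : ℕ → ℝ := fun d => 1 - (d : ℝ) / ((m + 1 : ℕ) : ℝ) with hu
  have h2 : ∀ d ∈ range m, ((j : ℝ) + 1) * (1 / ((m + 1 : ℕ) : ℝ)) * u (d + 1) ^ j ≤ u d ^ (j + 1) - u (d + 1) ^ (j + 1) := by
    intro d hd
    rw [mem_range] at hd
    have e1 : u d - u (d + 1) = 1 / ((m + 1 : ℕ) : ℝ) := by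
      rw [hu]
      simp only
      push_cast
      ring
    rw [← e1]
    apply pow_tel
    · rw [hu]
      simp only
      rw [sub_nonneg, div_le_one hn0]
      exact_mod_cast (by omega : d + 1 ≤ m + 1)
    · have : 0 ≤ u d - u (d + 1) := by rw [e1]; positivity
      linarith
  have h3 := sum_le_sum h2
  rw [← mul_sum, sum_range_sub'] at h3
  have e2 : u 0 = 1 := by rw [hu]; simp
  have e3 : 0 ≤ u m := by
    rw [hu]
    simp only
    rw [sub_nonneg, div_le_one hn0]
    exact_mod_cast (by omega : m ≤ m + 1)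
  rw [e2, one_pow] at h3
  have h4 : ((j : ℝ) + 1) * (1 / ((m + 1 : ℕ) : ℝ)) * ∑ d ∈ range m, u (d + 1) ^ j ≤ 1 := by
    have := pow_nonneg e3 (j + 1)
    linarith
  have h5 : ∑ d ∈ range m, u (d + 1) ^ j ≤ ((m + 1 : ℕ) : ℝ) * (1 / (j + 1)) := by
    have e4 : (0 : ℝ) < (j + 1) * (1 / ((m + 1 : ℕ) : ℝ)) := by positivity
    refine le_of_mul_le_mul_left (h4.trans (le_of_eq ?_)) e4
    field_simp
  have h6 : (1 - (((0 : ℕ) : ℝ)) / ((m + 1 : ℕ) : ℝ)) ^ j = 1 := by simp
  rw [h6]
  exact add_le_add h5 le_rfl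

lemma good_half (j : ℕ) : Good (ch2 j) j (1 / (j + 1)) 1 where
  c_nonneg := fun i => by unfold ch2; positivity
  sum_le := by
    have := ps_half j 1
    unfold ps at this
    simp only [one_pow, mul_one] at this
    rw [this]
    norm_num
  conv := by
    have h1 : ps (ch2 j) j = fun x => ((1 + x) / 2) ^ j := funext fun x => ps_half j x
    rw [h1]
    have h2 : ConvexOn ℝ (Set.Icc (-1 : ℝ) 1) (fun x : ℝ => (1 + x) / 2) := by
      refine ⟨convex_Icc _ _, ?_⟩
      intro x _ y _ a b _ _ hab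
      simp only [smul_eq_mul]
      have : a + b = 1 := hab
      apply le_of_eq
      linear_combination (-1 / 2) * this
    exact h2.pow (fun x hx => by
      have := hx.1
      show 0 ≤ (1 + x) / 2
      linarith) j
  nonneg := fun x hx => by
    rw [ps_half]
    have := hx.1
    apply pow_nonneg
    linarith
  mean := fun n hn => half_mean j n hn
  L_nonneg := zero_le_one

/-- the product of `k` consecutive values, from `m` on -/
def pr (k m : ℕ) : ℤ := ∏ i ∈ range k, lam (m + i)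

lemma lam_pm (n : ℕ) : lam n = 1 ∨ lam n = -1 := by
  unfold lam
  exact neg_one_pow_eq_or ℤ _

lemma pr_pm (k m : ℕ) : pr k m = 1 ∨ pr k m = -1 := by
  unfold pr
  induction k with
  | zero => left; simp
  | succ k ih =>
    rw [prod_range_succ]
    rcases ih with h | h <;> rcases lam_pm (m + k) with h2 | h2 <;> rw [h, h2] <;> norm_num

lemma pr_mul (k m : ℕ) : pr k m * pr k (m + 1) = lam m * lam (m + k) := by
  have h1 : pr (k + 1) m = pr k m * lam (m + k) := by
    unfold pr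
    rw [prod_range_succ]
  have h2 : pr (k + 1) m = lam m * pr k (m + 1) := by
    unfold pr
    rw [prod_range_succ', add_zero, mul_comm]
    congr 1
    apply prod_congr rfl
    intro i _
    congr 1
    ring
  have h3 : pr k m * lam (m + k) = lam m * pr k (m + 1) := by rw [← h1, h2]
  rcases pr_pm k m with h | h <;> rcases pr_pm k (m + 1) with h' | h' <;> rcases lam_pm m with h'' | h'' <;>
    rcases lam_pm (m + k) with h''' | h''' <;> rw [h, h', h'', h'''] at h3 ⊢ <;> omega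

/-- the local sums of the products of consecutive values -/
lemma local_sum (H n k : ℕ) :
    |∑ b ∈ range H, (pr k (n + b + 2) : ℝ)| ≤ (∑ b ∈ range H, (1 + lf (n + b) * lf (n + b + k))) / 2 + 1 := by
  set P : ℕ → ℝ := fun b => (pr k (n + b + 2) : ℝ) with hP
  have hPpm : ∀ b, P b = 1 ∨ P b = -1 := by
    intro b
    rcases pr_pm k (n + b + 2) with h | h
    · left; rw [hP]; simp only; rw [h]; norm_num
    · right; rw [hP]; simp only; rw [h]; norm_num
  have hPabs : ∀ b, |P b| ≤ 1 := by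
    intro b
    rcases hPpm b with h | h <;> rw [h] <;> norm_num
  have h1 : ∀ b, |P b + P (b + 1)| = 1 + lf (n + b) * lf (n + b + k) := by
    intro b
    have h2 : P b * P (b + 1) = lf (n + b) * lf (n + b + k) := by
      have := pr_mul k (n + b + 2)
      have h3 : (pr k (n + b + 2) : ℝ) * (pr k (n + b + 2 + 1) : ℝ) = (lam (n + b + 2) : ℝ) * (lam (n + b + 2 + k) : ℝ) := by
        exact_mod_cast this
      unfold lf
      rw [hP]
      simp only
      rw [show n + (b + 1) + 2 = n + b + 2 + 1 by ring, show n + b + k + 2 = n + b + 2 + k by ring]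
      exact h3
    rw [← h2]
    rcases hPpm b with h | h <;> rcases hPpm (b + 1) with h' | h' <;> rw [h, h'] <;> norm_num
  have h2 : 2 * ∑ b ∈ range H, P b = ∑ b ∈ range H, (P b + P (b + 1)) + (P 0 - P H) := by
    rw [sum_add_distrib]
    have h3 := sum_range_succ' P H
    have h4 := sum_range_succ P H
    linarith
  have h3 : |2 * ∑ b ∈ range H, P b| ≤ ∑ b ∈ range H, (1 + lf (n + b) * lf (n + b + k)) + 2 := by
    rw [h2]
    refine (abs_add_le _ _).trans ?_
    have e1 : |∑ b ∈ range H, (P b + P (b + 1))| ≤ ∑ b ∈ range H, (1 + lf (n + b) * lf (n + b + k)) := by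
      refine (abs_sum_le_sum_abs _ _).trans (le_of_eq ?_)
      exact sum_congr rfl fun b _ => h1 b
    have e2 : |P 0 - P H| ≤ 2 := by
      refine (abs_sub _ _).trans ?_
      linarith [hPabs 0, hPabs H]
    linarith
  rw [abs_mul, abs_of_pos (by norm_num : (0 : ℝ) < 2)] at h3
  linarith

lemma local_pow (H n k j : ℕ) (hH : 1 ≤ H) :
    |(∑ b ∈ range H, (pr k (n + b + 2) : ℝ)) / H| ^ j ≤ ps (ch2 j) j (S lf H n k) + j / H := by
  have hH0 : (0 : ℝ) < H := by exact_mod_cast hH
  set x : ℝ := |(∑ b ∈ range H, (pr k (n + b + 2) : ℝ)) / H| with hx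
  set u : ℝ := (1 + S lf H n k) / 2 with hu
  have h1 : x ≤ u + 1 / H := by
    rw [hx, abs_div, Nat.abs_cast, div_le_iff₀ hH0]
    refine (local_sum H n k).trans (le_of_eq ?_)
    rw [hu]
    unfold S
    rw [sum_add_distrib, sum_const, card_range, nsmul_eq_mul]
    field_simp
  have hS := abs_le.1 (S_abs lf_pm H n k)
  have hu0 : 0 ≤ u := by rw [hu]; linarith
  have hu1 : u ≤ 1 := by rw [hu]; linarith
  have hx0 : 0 ≤ x := abs_nonneg _
  have hx1 : x ≤ 1 := by
    rw [hx, abs_div, Nat.abs_cast]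
    apply div_le_one_of_le₀ _ hH0.le
    refine (abs_sum_le_sum_abs _ _).trans ?_
    have : ∀ b ∈ range H, |(pr k (n + b + 2) : ℝ)| ≤ 1 := by
      intro b _
      rcases pr_pm k (n + b + 2) with h | h <;> rw [h] <;> norm_num
    refine (sum_le_sum this).trans (le_of_eq ?_)
    rw [sum_const, card_range, nsmul_eq_mul, mul_one]
  rw [ps_half]
  rcases le_total x u with h | h
  · have h2 := pow_le_pow_left₀ hx0 h j
    have h3 : (0 : ℝ) ≤ j / H := by positivity
    rw [← hu]
    linarith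
  · have h2 := pow_lip x u (by rw [abs_of_nonneg hx0]; exact hx1) (by rw [abs_of_nonneg hu0]; exact hu1) j
    have h3 := (abs_le.1 h2).2
    rw [abs_of_nonneg (sub_nonneg.2 h)] at h3
    have h4 : (j : ℝ) * (x - u) ≤ j / H := by
      have : x - u ≤ 1 / H := by linarith
      calc (j : ℝ) * (x - u) ≤ j * (1 / H) := mul_le_mul_of_nonneg_left this (Nat.cast_nonneg _)
        _ = j / H := by ring
    rw [← hu]
    linarith

/-- **the increments of the sums of products of consecutive values** -/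
theorem main3 (j : ℕ) (ε : ℝ) (hε : 0 < ε) :
    ∃ C : ℕ, 1 ≤ C ∧ ∀ H X : ℕ, C ≤ H → C * H ≤ X →
      ∑ n ∈ range X, ∑ k ∈ Icc 1 H, |(∑ b ∈ range H, (pr k (n + b + 2) : ℝ)) / H| ^ j ≤ (1 / (j + 1) + ε) * X * H := by
  obtain ⟨C, hC1, hC⟩ := main2 (good_half j) (ε / 2) (by positivity)
  obtain ⟨C', hC'⟩ := exists_nat_ge (2 * j / ε)
  refine ⟨C + C', by omega, fun H X hH hX => ?_⟩
  have hH1 : 1 ≤ H := by omega
  have hH0 : (0 : ℝ) < H := by exact_mod_cast hH1
  have h1 := hC H X (by omega) ((Nat.mul_le_mul_right H (by omega : C ≤ C + C')).trans hX)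
  have h2 : ∑ n ∈ range X, ∑ k ∈ Icc 1 H, |(∑ b ∈ range H, (pr k (n + b + 2) : ℝ)) / H| ^ j ≤
      ∑ n ∈ range X, ∑ k ∈ Icc 1 H, (ps (ch2 j) j (S lf H n k) + j / H) :=
    sum_le_sum fun n _ => sum_le_sum fun k _ => local_pow H n k j hH1
  refine h2.trans ?_
  simp only [sum_add_distrib, sum_const, Nat.card_Icc, Nat.add_sub_cancel, card_range, nsmul_eq_mul]
  have h3 : (j : ℝ) / H ≤ ε / 2 := by
    rw [div_le_iff₀ hH0]
    rw [div_le_iff₀ hε] at hC'
    have : (C' : ℝ) ≤ H := by exact_mod_cast (by omega : C' ≤ H)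
    nlinarith
  have h4 : (X : ℝ) * (H * ((j : ℝ) / H)) ≤ X * (H * (ε / 2)) := by gcongr
  linarith

end Pool.Agent.R509.CE
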