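import Pool.Agent.R509.CE.Cmp2

/-!
Library R509.CE (helper509): convex polynomials with nonnegative coefficients.
-/

set_option autoImplicit false

namespace Pool.Agent.R509.CE

open Finset
open Pool.Agent.R509.CD

/-- the polynomial with coefficients `c` -/
noncomputable def ps (c : ℕ → ℝ) (k0 : ℕ) (x : ℝ) : ℝ := ∑ i ∈ range (k0 + 1), c i * x ^ i

/-- convex polynomials with nonnegative coefficients, with mean `I` over `[-1, 1]` -/
structure Good (c : ℕ → ℝ) (k0 : ℕ) (I L : ℝ) : Prop where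
  c_nonneg : ∀ i, 0 ≤ c i
  sum_le : ∑ i ∈ range (k0 + 1), c i ≤ 1
  conv : ConvexOn ℝ (Set.Icc (-1) 1) (ps c k0)
  nonneg : ∀ x ∈ Set.Icc (-1 : ℝ) 1, 0 ≤ ps c k0 x
  mean : ∀ n : ℕ, 1 ≤ n → ∑ d ∈ range n, ps c k0 (1 - 2 * (d : ℝ) / n) ≤ n * I + L
  L_nonneg : 0 ≤ L

variable {c : ℕ → ℝ} {k0 : ℕ} {I L : ℝ}

lemma ps_lip (h : Good c k0 I L) (x y : ℝ) (hx : |x| ≤ 1) (hy : |y| ≤ 1) : |ps c k0 x - ps c k0 y| ≤ k0 * |x - y| := by
  unfold ps
  rw [← sum_sub_distrib]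
  have h1 : ∀ i ∈ range (k0 + 1), |c i * x ^ i - c i * y ^ i| ≤ c i * (k0 * |x - y|) := by
    intro i hi
    rw [mem_range] at hi
    rw [← mul_sub, abs_mul, abs_of_nonneg (h.c_nonneg i)]
    apply mul_le_mul_of_nonneg_left _ (h.c_nonneg i)
    have e1 : |x ^ i - y ^ i| ≤ i * |x - y| := by
      have := abs_pow_sub_pow_le x y i
      refine this.trans ?_
      have h3 : (max |x| |y|) ^ (i - 1) ≤ 1 := pow_le_one₀ (le_max_of_le_left (abs_nonneg _)) (max_le hx hy)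
      have h4 : 0 ≤ |x - y| * (i : ℝ) := by positivity
      calc |x - y| * (i : ℝ) * (max |x| |y|) ^ (i - 1) ≤ |x - y| * (i : ℝ) * 1 :=
            mul_le_mul_of_nonneg_left h3 h4
        _ = _ := by ring
    have e2 : (i : ℝ) ≤ k0 := by exact_mod_cast (by omega : i ≤ k0)
    exact e1.trans (mul_le_mul_of_nonneg_right e2 (abs_nonneg _))
  refine (abs_sum_le_sum_abs _ _).trans ((sum_le_sum h1).trans ?_)
  rw [← sum_mul]
  have e3 : 0 ≤ (k0 : ℝ) * |x - y| := by positivity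
  nlinarith [h.sum_le]

lemma ps_le (h : Good c k0 I L) (x : ℝ) (hx : |x| ≤ 1) : ps c k0 x ≤ 1 := by
  unfold ps
  refine le_trans (sum_le_sum (g := c) fun i _ => ?_) h.sum_le
  have : x ^ i ≤ 1 := by
    have := pow_le_one₀ (n := i) (abs_nonneg x) hx
    rw [← abs_pow] at this
    exact (le_abs_self _).trans this
  have := mul_le_mul_of_nonneg_left this (h.c_nonneg i)
  rwa [mul_one] at this

lemma ps_nonneg (h : Good c k0 I L) (x : ℝ) (hx : |x| ≤ 1) : 0 ≤ ps c k0 x :=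
  h.nonneg x (abs_le.1 hx)

lemma ps_jensen (h : Good c k0 I L) {ι : Type} (s : Finset ι) (n : ℝ) (hn : 0 < n) (hs : (s.card : ℝ) = n) (z : ι → ℝ)
    (hz : ∀ i ∈ s, |z i| ≤ 1) : ps c k0 ((∑ i ∈ s, z i) / n) ≤ (∑ i ∈ s, ps c k0 (z i)) / n := by
  have h1 := h.conv.map_sum_le (t := s) (w := fun _ => 1 / n) (p := z) (fun i _ => by positivity) (by
    rw [sum_const, nsmul_eq_mul, hs, mul_one_div, div_self hn.ne']) (fun i hi => abs_le.1 (hz i hi))
  simp only [smul_eq_mul] at h1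
  rw [← mul_sum, ← mul_sum] at h1
  rw [div_eq_inv_mul, div_eq_inv_mul, ← one_div]
  exact h1

section mom

variable {p : ℕ} [Fact p.Prime]

/-- convex moments of the autocorrelations -/
theorem moment2 (h : Good c k0 I L) (g : ZMod p → ℝ) (hg : ∀ x, g x = 1 ∨ g x = -1) :
    (∑ a, ps c k0 ((∑ x, g x * g (x + a)) / p)) / p ≤ I + (L + k0) / p + k0 * ((∑ x, g x) / p) ^ 2 := by
  have hp : 2 ≤ p := (Fact.out : p.Prime).two_le
  have hp0 : (0 : ℝ) < p := by exact_mod_cast (by omega : 0 < p)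
  have hp2 : (2 : ℝ) ≤ p := by exact_mod_cast hp
  set ψ : ℕ → ℝ := fun d => ps c k0 (1 - 2 * (d : ℝ) / p) with hψ
  have hx : ∀ d : ℕ, d ≤ p → |(1 : ℝ) - 2 * (d : ℝ) / p| ≤ 1 := by
    intro d hd
    have h1 : (d : ℝ) ≤ p := by exact_mod_cast hd
    have h2 : 2 * (d : ℝ) / p ≤ 2 := by
      rw [div_le_iff₀ hp0]
      linarith
    have h3 : 0 ≤ 2 * (d : ℝ) / p := by positivity
    rw [abs_le]
    constructor <;> linarith
  have h1 : ∀ a, ps c k0 ((∑ x, g x * g (x + a)) / p) = ψ (D g a) := by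
    intro a
    rw [corr g hg, hψ]
    simp only
    congr 1
    field_simp
  have h2 := convex_dom g hg ψ (by
    intro u hu
    unfold dd
    have hc := h.conv.2 (abs_le.1 (hx (u + 2) hu)) (abs_le.1 (hx u (by omega))) (by norm_num : (0 : ℝ) ≤ 1 / 2)
      (by norm_num : (0 : ℝ) ≤ 1 / 2) (by norm_num)
    simp only [smul_eq_mul] at hc
    have e1 : 1 / 2 * (1 - 2 * ((u + 2 : ℕ) : ℝ) / p) + 1 / 2 * (1 - 2 * ((u : ℕ) : ℝ) / p) =
        1 - 2 * ((u + 1 : ℕ) : ℝ) / p := by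
      push_cast
      field_simp
      ring
    rw [e1] at hc
    rw [hψ]
    simp only
    linarith)
  have h3 := h.mean p (by omega)
  have hk0 : (0 : ℝ) ≤ k0 := Nat.cast_nonneg _
  have e1 : ψ p - ψ (p - 1) ≤ k0 * (2 / p) := by
    have := (abs_le.1 (ps_lip h _ _ (hx p le_rfl) (hx (p - 1) (by omega)))).2
    refine this.trans (mul_le_mul_of_nonneg_left (le_of_eq ?_) hk0)
    rw [Nat.cast_sub (by omega)]
    have : (1 : ℝ) - 2 * (p : ℝ) / p - (1 - 2 * ((p : ℝ) - (1 : ℕ)) / p) = -(2 / p) := by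
      push_cast
      field_simp
      ring
    rw [this, abs_neg, abs_of_pos (by positivity)]
  have e2 : -(ψ 1 - ψ 0) ≤ k0 * (2 / p) := by
    have := (abs_le.1 (ps_lip h _ _ (hx 0 (by omega)) (hx 1 (by omega)))).2
    have e3 : |(1 : ℝ) - 2 * ((0 : ℕ) : ℝ) / p - (1 - 2 * ((1 : ℕ) : ℝ) / p)| = 2 / p := by
      push_cast
      rw [show (1 : ℝ) - 2 * 0 / p - (1 - 2 * 1 / p) = 2 / p by ring, abs_of_pos (by positivity)]
    rw [e3] at this
    rw [hψ]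
    linarith
  rw [sum_congr rfl fun a _ => h1 a]
  have hσ := sq_nonneg (∑ x, g x)
  have h5 : (p : ℝ) / 2 * (ψ p - ψ (p - 1)) ≤ k0 := by
    have : (p : ℝ) / 2 * (ψ p - ψ (p - 1)) ≤ (p : ℝ) / 2 * (k0 * (2 / p)) :=
      mul_le_mul_of_nonneg_left e1 (by positivity)
    refine this.trans (le_of_eq ?_)
    field_simp
  have h6 : - ((∑ x, g x) ^ 2 / 2 * (ψ 1 - ψ 0)) ≤ (∑ x, g x) ^ 2 * k0 / p := by
    have : (∑ x, g x) ^ 2 / 2 * (-(ψ 1 - ψ 0)) ≤ (∑ x, g x) ^ 2 / 2 * (k0 * (2 / p)) :=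
      mul_le_mul_of_nonneg_left e2 (by positivity)
    have e5 : (∑ x, g x) ^ 2 / 2 * (k0 * (2 / p)) = (∑ x, g x) ^ 2 * k0 / p := by
      field_simp
    rw [e5] at this
    linarith
  rw [div_le_iff₀ hp0]
  have h7 : (I + (L + k0) / p + k0 * ((∑ x, g x) / p) ^ 2) * p =
      p * I + L + k0 + (∑ x, g x) ^ 2 * k0 / p := by
    field_simp
    ring
  rw [h7]
  linarith

/-- **the main bound for a window** -/
theorem window2 {K : ℕ} [NeZero K] (h : Good c k0 I L) (f : ZMod K → ℝ) (hf : ∀ x, f x = 1 ∨ f x = -1) (Q N0 A : ℕ)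
    (hQ : 26 * (k0 + 1) ≤ Q)
    (η w : ℝ) (hη : 0 < η) (hN0 : 1 / η ≤ N0) (hw : 0 < w) (hw2 : 4 * ((Q : ℝ) ^ N0 * p) * w ≤ 1 / Q) (hA : 1 ≤ A) :
    (∑ s ∈ range A, ∑ s' ∈ range A, ps c k0 (R f ((s : ZMod K) - (s' : ZMod K)))) / (A : ℝ) ^ 2 ≤
      I + 1 / (4 * (A : ℝ) ^ 2 * w ^ 2) + k0 * η + 26 * k0 / Q + (L + k0) / p +
        k0 * ∑ m ∈ Icc 1 (Q ^ N0), (∑ y, av f m p y ^ 2) / K := by
  haveI : NeZero p := ⟨(Fact.out : p.Prime).ne_zero⟩
  have hK : (0 : ℝ) < K := K_pos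
  have hp : (0 : ℝ) < p := K_pos
  have hA0 : (0 : ℝ) < A := by exact_mod_cast hA
  have hQ0 : (0 : ℝ) < Q := by
    have : 0 < Q := by omega
    exact_mod_cast this
  obtain ⟨m, hm1, hm2, hm3⟩ := cmp_all (p := p) f hf k0 Q N0 A hQ η w hη hN0 hw hw2 hA
  set e : ℝ := 1 / (4 * (A : ℝ) ^ 2 * w ^ 2) + k0 * η + 26 * k0 / Q with he
  have he0 : 0 ≤ e := by positivity
  have hR : ∀ (y : ZMod K) (j : ZMod p), |R (gy (p := p) f m y) j| ≤ 1 := by
    intro y j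
    unfold R
    rw [abs_div, Nat.abs_cast]
    apply div_le_one_of_le₀ _ (Nat.cast_nonneg _)
    refine (abs_sum_le_sum_abs _ _).trans ?_
    have : ∀ x ∈ (univ : Finset (ZMod p)), |gy (p := p) f m y x * gy (p := p) f m y (x + j)| ≤ 1 := by
      intro x _
      unfold gy
      rw [abs_mul]
      have a1 : ∀ z, |f z| = 1 := fun z => by rcases hf z with h | h <;> rw [h] <;> norm_num
      rw [a1, a1, one_mul]
    refine (sum_le_sum this).trans (le_of_eq ?_)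
    rw [sum_const, card_univ, ZMod.card, nsmul_eq_mul, mul_one]
  -- the polynomial of the averages
  have h1 : (∑ s ∈ range A, ∑ s' ∈ range A, ps c k0 (R f ((s : ZMod K) - (s' : ZMod K)))) / (A : ℝ) ^ 2 =
      ∑ i ∈ range (k0 + 1), c i * ((∑ s ∈ range A, ∑ s' ∈ range A, R f ((s : ZMod K) - (s' : ZMod K)) ^ i) / (A : ℝ) ^ 2) := by
    unfold ps
    rw [sum_congr rfl fun s _ => sum_comm, sum_comm, sum_div]
    apply sum_congr rfl
    intro i _
    simp only [← mul_sum]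
    rw [mul_div_assoc]
  have h2 : ∑ i ∈ range (k0 + 1), c i * ((∑ s ∈ range A, ∑ s' ∈ range A, R f ((s : ZMod K) - (s' : ZMod K)) ^ i) / (A : ℝ) ^ 2) ≤
      ∑ i ∈ range (k0 + 1), c i * (e + (∑ j : ZMod p, ((∑ y, R (gy (p := p) f m y) j) / K) ^ i) / p) := by
    apply sum_le_sum
    intro i hi
    rw [mem_range] at hi
    apply mul_le_mul_of_nonneg_left _ (h.c_nonneg i)
    refine (hm3 i (by omega)).trans ?_
    have e1 : (i : ℝ) ≤ k0 := by exact_mod_cast (by omega : i ≤ k0)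
    have e2 : (i : ℝ) * η ≤ k0 * η := mul_le_mul_of_nonneg_right e1 hη.le
    have e3 : 26 * (i : ℝ) / Q ≤ 26 * k0 / Q := by gcongr
    rw [he]
    linarith
  have h3 : ∑ i ∈ range (k0 + 1), c i * (e + (∑ j : ZMod p, ((∑ y, R (gy (p := p) f m y) j) / K) ^ i) / p) =
      (∑ i ∈ range (k0 + 1), c i) * e + (∑ j : ZMod p, ps c k0 ((∑ y, R (gy (p := p) f m y) j) / K)) / p := by
    unfold ps
    rw [sum_comm (s := univ), sum_div, sum_mul, ← sum_add_distrib]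
    apply sum_congr rfl
    intro i _
    rw [← mul_sum]
    ring
  have h4 : (∑ j : ZMod p, ps c k0 ((∑ y, R (gy (p := p) f m y) j) / K)) / p ≤
      (∑ y, (∑ j, ps c k0 (R (gy (p := p) f m y) j)) / p) / K := by
    have e1 : ∀ j : ZMod p, ps c k0 ((∑ y, R (gy (p := p) f m y) j) / K) ≤ (∑ y, ps c k0 (R (gy (p := p) f m y) j)) / K :=
      fun j => ps_jensen h univ K hK (by rw [card_univ, ZMod.card]) _ fun y _ => hR y j
    calc (∑ j : ZMod p, ps c k0 ((∑ y, R (gy (p := p) f m y) j) / K)) / p ≤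
          (∑ j : ZMod p, (∑ y, ps c k0 (R (gy (p := p) f m y) j)) / K) / p := by
          apply div_le_div_of_nonneg_right (sum_le_sum fun j _ => e1 j) hp.le
      _ = _ := by
          rw [← sum_div, ← sum_div, sum_comm]
          field_simp
  have h5 : ∀ y ∈ (univ : Finset (ZMod K)), (∑ j, ps c k0 (R (gy (p := p) f m y) j)) / p ≤
      (I + (L + k0) / p) + k0 * av f m p y ^ 2 := by
    intro y _
    rw [← gy_sum]
    exact moment2 h (gy (p := p) f m y) (fun x => hf _)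
  have h6 : (∑ y, (∑ j, ps c k0 (R (gy (p := p) f m y) j)) / p) / K ≤
      (I + (L + k0) / p) + k0 * ((∑ y, av f m p y ^ 2) / K) := by
    rw [div_le_iff₀ hK]
    refine (sum_le_sum h5).trans (le_of_eq ?_)
    rw [sum_add_distrib, ← mul_sum, sum_const, card_univ, ZMod.card, nsmul_eq_mul]
    field_simp
  have h7 : (∑ y, av f m p y ^ 2) / K ≤ ∑ m ∈ Icc 1 (Q ^ N0), (∑ y, av f m p y ^ 2) / K :=
    single_le_sum (f := fun m => (∑ y, av f m p y ^ 2) / K) (fun m _ => by positivity) (mem_Icc.2 ⟨hm1, hm2⟩)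
  have h8 : (k0 : ℝ) * ((∑ y, av f m p y ^ 2) / K) ≤ k0 * ∑ m ∈ Icc 1 (Q ^ N0), (∑ y, av f m p y ^ 2) / K :=
    mul_le_mul_of_nonneg_left h7 (Nat.cast_nonneg _)
  have h9 : (∑ i ∈ range (k0 + 1), c i) * e ≤ e := by nlinarith [h.sum_le]
  rw [h1]
  linarith

end mom

end Pool.Agent.R509.CE
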