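import Pool.Agent.R509.CD.Mrp
import Pool.Agent.R509.CE.Psi

/-!
Library R509.CE (helper509): convex moments of the local autocorrelations of a sign sequence.
-/

set_option autoImplicit false

namespace Pool.Agent.R509.CE

open Finset
open Pool.Agent.R509.CD

section seq

variable {f : ℕ → ℝ} {c : ℕ → ℝ} {k0 : ℕ} {I L : ℝ}

/-- the local energy -/
noncomputable def W2 (f : ℕ → ℝ) (c : ℕ → ℝ) (k0 K A n : ℕ) : ℝ :=
  (∑ s ∈ range A, ∑ s' ∈ range A, ps c k0 (V f K (n + s) (n + s'))) / (A : ℝ) ^ 2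

/-- step 2 -/
lemma step2' (h : Good c k0 I L) (hf : ∀ n, f n = 1 ∨ f n = -1) (K H n a : ℕ) (hK : 1 ≤ K) (hH : 1 ≤ H) :
    ps c k0 (S f H n a) ≤ (∑ b ∈ range H, ps c k0 (V f K (n + b) (n + b + a))) / H + k0 * (2 * K / H) := by
  have hK0 : (0 : ℝ) < K := by exact_mod_cast hK
  have hH0 : (0 : ℝ) < H := by exact_mod_cast hH
  set M : ℝ := (∑ b ∈ range H, V f K (n + b) (n + b + a)) / H with hM
  have h1 : |S f H n a - M| ≤ 2 * K / H := by
    have e1 : S f H n a - M = (∑ i ∈ range K, (∑ b ∈ range H, f (n + b) * f (n + b + a) -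
        ∑ b ∈ range H, f (n + (b + i)) * f (n + (b + i) + a))) / (K * H) := by
      rw [hM]
      unfold S V
      rw [sum_sub_distrib, sum_const, card_range, nsmul_eq_mul, ← sum_div, sum_comm]
      have : ∀ b ∈ range H, ∑ i ∈ range K, f (n + b + i) * f (n + b + a + i) =
          ∑ i ∈ range K, f (n + (b + i)) * f (n + (b + i) + a) := by
        intro b _
        apply sum_congr rfl
        intro i _
        congr 2 <;> ring
      rw [sum_comm, sum_congr rfl this]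
      field_simp
      congr 1
      exact sum_comm
    rw [e1, abs_div, abs_of_pos (by positivity : (0 : ℝ) < K * H), div_le_div_iff₀ (by positivity) hH0]
    have e2 : |∑ i ∈ range K, (∑ b ∈ range H, f (n + b) * f (n + b + a) -
        ∑ b ∈ range H, f (n + (b + i)) * f (n + (b + i) + a))| ≤ K * (2 * K) := by
      refine (abs_sum_le_sum_abs _ _).trans ?_
      have : ∀ i ∈ range K, |∑ b ∈ range H, f (n + b) * f (n + b + a) -
          ∑ b ∈ range H, f (n + (b + i)) * f (n + (b + i) + a)| ≤ 2 * K := by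
        intro i hi
        rw [mem_range] at hi
        rw [abs_sub_comm]
        refine (shift_abs (fun b => f (n + b) * f (n + b + a)) (fun b => (f_abs2 hf _ _).le) H i).trans ?_
        have : (i : ℝ) ≤ K := by exact_mod_cast hi.le
        linarith
      refine (sum_le_sum this).trans (le_of_eq ?_)
      rw [sum_const, card_range, nsmul_eq_mul]
    nlinarith
  have hMabs : |M| ≤ 1 := avg_abs _ (fun b => V f K (n + b) (n + b + a)) (fun b => V_abs hf _ _ _) H (card_range H).le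
  have h2 := ps_lip h _ _ (S_abs hf H n a) hMabs
  have h3 : ps c k0 M ≤ (∑ b ∈ range H, ps c k0 (V f K (n + b) (n + b + a))) / H :=
    ps_jensen h (range H) H hH0 (by rw [card_range]) _ fun b _ => V_abs hf _ _ _
  have h4 := (abs_le.1 h2).2
  have h5 : (k0 : ℝ) * |S f H n a - M| ≤ k0 * (2 * K / H) := mul_le_mul_of_nonneg_left h1 (Nat.cast_nonneg _)
  linarith

lemma pV_nonneg (h : Good c k0 I L) (hf : ∀ n, f n = 1 ∨ f n = -1) (K n n' : ℕ) : 0 ≤ ps c k0 (V f K n n') :=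
  ps_nonneg h _ (V_abs hf _ _ _)

lemma pV_le (h : Good c k0 I L) (hf : ∀ n, f n = 1 ∨ f n = -1) (K n n' : ℕ) : ps c k0 (V f K n n') ≤ 1 :=
  ps_le h _ (V_abs hf _ _ _)

/-- step 3 -/
lemma step3' (h : Good c k0 I L) (hf : ∀ n, f n = 1 ∨ f n = -1) (K H X : ℕ) (hK : 1 ≤ K) (hH : 1 ≤ H) :
    ∑ n ∈ range X, ∑ a ∈ Icc 1 H, ps c k0 (S f H n a) ≤
      ∑ n ∈ range X, ∑ a ∈ Icc 1 H, ps c k0 (V f K n (n + a)) + H * H + X * H * (k0 * (2 * K / H)) := by
  have hH0 : (0 : ℝ) < H := by exact_mod_cast hH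
  have h1 : ∑ n ∈ range X, ∑ a ∈ Icc 1 H, ps c k0 (S f H n a) ≤
      ∑ n ∈ range X, ∑ a ∈ Icc 1 H, ((∑ b ∈ range H, ps c k0 (V f K (n + b) (n + b + a))) / H + k0 * (2 * K / H)) :=
    sum_le_sum fun n _ => sum_le_sum fun a _ => step2' h hf K H n a hK hH
  have h2 : ∑ n ∈ range X, ∑ a ∈ Icc 1 H, ((∑ b ∈ range H, ps c k0 (V f K (n + b) (n + b + a))) / H + k0 * (2 * K / H)) =
      (∑ a ∈ Icc 1 H, ∑ b ∈ range H, ∑ n ∈ range X, ps c k0 (V f K (n + b) (n + b + a))) / H + X * H * (k0 * (2 * K / H)) := by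
    simp only [sum_add_distrib, sum_const, card_range, Nat.card_Icc, Nat.add_sub_cancel, nsmul_eq_mul, ← sum_div]
    congr 1
    · congr 1
      rw [sum_comm]
      apply sum_congr rfl
      intro a _
      rw [sum_comm]
    · ring
  rw [h2] at h1
  have h3 : ∀ a ∈ Icc 1 H, ∀ b ∈ range H, ∑ n ∈ range X, ps c k0 (V f K (n + b) (n + b + a)) ≤
      ∑ n ∈ range X, ps c k0 (V f K n (n + a)) + H := by
    intro a _ b hb
    rw [mem_range] at hb
    refine (shift_le (fun n => ps c k0 (V f K n (n + a))) (fun n => pV_nonneg h hf K _ _) (fun n => pV_le h hf K _ _) X b).trans ?_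
    have : (b : ℝ) ≤ H := by exact_mod_cast hb.le
    linarith
  have h4 : (∑ a ∈ Icc 1 H, ∑ b ∈ range H, ∑ n ∈ range X, ps c k0 (V f K (n + b) (n + b + a))) / H ≤
      ∑ n ∈ range X, ∑ a ∈ Icc 1 H, ps c k0 (V f K n (n + a)) + H * H := by
    rw [div_le_iff₀ hH0]
    refine (sum_le_sum fun a ha => sum_le_sum fun b hb => h3 a ha b hb).trans (le_of_eq ?_)
    rw [sum_comm (s := range X)]
    simp only [sum_add_distrib, sum_const, card_range, Nat.card_Icc, Nat.add_sub_cancel, nsmul_eq_mul, ← mul_sum]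
    ring
  linarith

/-- positive definiteness -/
lemma psd' (h : Good c k0 I L) (K A n n' : ℕ) :
    ∑ s ∈ range A, ∑ s' ∈ range A, ps c k0 (V f K (n + s) (n' + s')) ≤
      (∑ s ∈ range A, ∑ s' ∈ range A, ps c k0 (V f K (n + s) (n + s')) +
        ∑ s ∈ range A, ∑ s' ∈ range A, ps c k0 (V f K (n' + s) (n' + s'))) / 2 := by
  have h1 : ∀ a b : ℕ, ∑ s ∈ range A, ∑ s' ∈ range A, ps c k0 (V f K (a + s) (b + s')) =
      ∑ i ∈ range (k0 + 1), c i * ∑ s ∈ range A, ∑ s' ∈ range A, V f K (a + s) (b + s') ^ i := by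
    intro a b
    unfold ps
    rw [sum_congr rfl fun s _ => sum_comm, sum_comm]
    apply sum_congr rfl
    intro i _
    simp only [← mul_sum]
  rw [h1, h1, h1, ← sum_add_distrib, sum_div]
  apply sum_le_sum
  intro i _
  have := mul_le_mul_of_nonneg_left (psd (f := f) i K A n n') (h.c_nonneg i)
  linarith

lemma W2_nonneg (h : Good c k0 I L) (hf : ∀ n, f n = 1 ∨ f n = -1) (K A n : ℕ) : 0 ≤ W2 f c k0 K A n := by
  unfold W2
  apply div_nonneg _ (by positivity)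
  exact sum_nonneg fun s _ => sum_nonneg fun s' _ => pV_nonneg h hf K _ _

lemma W2_le (h : Good c k0 I L) (hf : ∀ n, f n = 1 ∨ f n = -1) (K A n : ℕ) : W2 f c k0 K A n ≤ 1 := by
  unfold W2
  apply div_le_one_of_le₀ _ (by positivity)
  refine (sum_le_sum fun s _ => sum_le_sum fun s' _ => pV_le h hf K _ _).trans (le_of_eq ?_)
  simp only [sum_const, card_range, nsmul_eq_mul]
  ring

/-- step 4 -/
lemma step4' (h : Good c k0 I L) (hf : ∀ n, f n = 1 ∨ f n = -1) (K H X A : ℕ) (hA : 1 ≤ A) :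
    ∑ n ∈ range X, ∑ a ∈ Icc 1 H, ps c k0 (V f K n (n + a)) ≤
      H * ∑ n ∈ range X, W2 f c k0 K A n + H * H + A * (H + X) := by
  have hA0 : (0 : ℝ) < A := by exact_mod_cast hA
  set Z : ℝ := ∑ n ∈ range X, ∑ a ∈ Icc 1 H, ps c k0 (V f K n (n + a)) with hZ
  have h1 : ∀ s ∈ range A, ∀ s' ∈ range A, Z ≤ ∑ n ∈ range X, ∑ a ∈ Icc 1 H, ps c k0 (V f K (n + s) (n + a + s')) + A * (H + X) := by
    intro s hs s' hs'
    rw [mem_range] at hs hs'
    have e1 : Z ≤ ∑ n ∈ range X, ∑ a ∈ Icc 1 H, ps c k0 (V f K (n + s) (n + s + a)) + A * H := by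
      rw [hZ, sum_comm, sum_comm (s := range X)]
      have : ∀ a ∈ Icc 1 H, ∑ n ∈ range X, ps c k0 (V f K n (n + a)) ≤ ∑ n ∈ range X, ps c k0 (V f K (n + s) (n + s + a)) + A := by
        intro a _
        refine (shift_ge (fun n => ps c k0 (V f K n (n + a))) (fun n => pV_nonneg h hf K _ _) (fun n => pV_le h hf K _ _) X s).trans ?_
        have : (s : ℝ) ≤ A := by exact_mod_cast hs.le
        linarith
      refine (sum_le_sum this).trans (le_of_eq ?_)
      rw [sum_add_distrib, sum_const, Nat.card_Icc, Nat.add_sub_cancel, nsmul_eq_mul]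
      ring
    have e2 : ∑ n ∈ range X, ∑ a ∈ Icc 1 H, ps c k0 (V f K (n + s) (n + s + a)) ≤
        ∑ n ∈ range X, ∑ a ∈ Icc 1 H, ps c k0 (V f K (n + s) (n + a + s')) + A * X := by
      have : ∀ n ∈ range X, ∑ a ∈ Icc 1 H, ps c k0 (V f K (n + s) (n + s + a)) ≤
          ∑ a ∈ Icc 1 H, ps c k0 (V f K (n + s) (n + a + s')) + A := by
        intro n _
        have := shiftI (fun a => ps c k0 (V f K (n + s) (n + a))) (fun a => pV_nonneg h hf K _ _) (fun a => pV_le h hf K _ _)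
          H s s' A hs hs'
        have e3 : ∀ a ∈ Icc 1 H, ps c k0 (V f K (n + s) (n + (a + s))) = ps c k0 (V f K (n + s) (n + s + a)) := fun a _ => by
          congr 2; ring
        have e4 : ∀ a ∈ Icc 1 H, ps c k0 (V f K (n + s) (n + (a + s'))) = ps c k0 (V f K (n + s) (n + a + s')) := fun a _ => by
          congr 2; ring
        rw [sum_congr rfl e3, sum_congr rfl e4] at this
        exact this
      refine (sum_le_sum this).trans (le_of_eq ?_)
      rw [sum_add_distrib, sum_const, card_range, nsmul_eq_mul]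
      ring
    linarith
  have h2 : (A : ℝ) ^ 2 * Z ≤ ∑ s ∈ range A, ∑ s' ∈ range A,
      (∑ n ∈ range X, ∑ a ∈ Icc 1 H, ps c k0 (V f K (n + s) (n + a + s')) + A * (H + X)) := by
    have := sum_le_sum fun s hs => sum_le_sum fun s' hs' => h1 s hs s' hs'
    simp only [sum_const, card_range, nsmul_eq_mul] at this
    have e : (A : ℝ) ^ 2 * Z = A * (A * Z) := by ring
    rw [e]
    exact this
  have h3 : ∑ s ∈ range A, ∑ s' ∈ range A,
      (∑ n ∈ range X, ∑ a ∈ Icc 1 H, ps c k0 (V f K (n + s) (n + a + s')) + (A : ℝ) * (H + X)) =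
      ∑ n ∈ range X, ∑ a ∈ Icc 1 H, ∑ s ∈ range A, ∑ s' ∈ range A, ps c k0 (V f K (n + s) (n + a + s')) +
        (A : ℝ) ^ 2 * (A * (H + X)) := by
    simp only [sum_add_distrib, sum_const, card_range, nsmul_eq_mul]
    congr 1
    · rw [sum_congr rfl fun s _ => sum_comm, sum_comm]
      apply sum_congr rfl
      intro n _
      rw [sum_congr rfl fun s _ => sum_comm, sum_comm]
    · ring
  rw [h3] at h2
  have h4 : ∀ n a : ℕ, ∑ s ∈ range A, ∑ s' ∈ range A, ps c k0 (V f K (n + s) (n + a + s')) ≤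
      (A : ℝ) ^ 2 * ((W2 f c k0 K A n + W2 f c k0 K A (n + a)) / 2) := by
    intro n a
    refine (psd' h K A n (n + a)).trans (le_of_eq ?_)
    unfold W2
    field_simp
  have h5 : ∑ n ∈ range X, ∑ a ∈ Icc 1 H, ∑ s ∈ range A, ∑ s' ∈ range A, ps c k0 (V f K (n + s) (n + a + s')) ≤
      (A : ℝ) ^ 2 * (H * ∑ n ∈ range X, W2 f c k0 K A n + H * H) := by
    refine (sum_le_sum fun n _ => sum_le_sum fun a _ => h4 n a).trans ?_
    simp only [← mul_sum]
    apply mul_le_mul_of_nonneg_left _ (by positivity)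
    rw [sum_comm]
    have : ∀ a ∈ Icc 1 H, ∑ n ∈ range X, (W2 f c k0 K A n + W2 f c k0 K A (n + a)) / 2 ≤ ∑ n ∈ range X, W2 f c k0 K A n + H := by
      intro a ha
      rw [mem_Icc] at ha
      have e1 := shift_le (fun n => W2 f c k0 K A n) (fun n => W2_nonneg h hf K A n) (fun n => W2_le h hf K A n) X a
      have e2 : (a : ℝ) ≤ H := by exact_mod_cast ha.2
      rw [← sum_div, sum_add_distrib]
      have e3 : (0 : ℝ) ≤ H := Nat.cast_nonneg _
      linarith
    refine (sum_le_sum this).trans (le_of_eq ?_)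
    rw [sum_const, Nat.card_Icc, Nat.add_sub_cancel, nsmul_eq_mul]
    ring
  have h6 : (A : ℝ) ^ 2 * Z ≤ (A : ℝ) ^ 2 * (H * ∑ n ∈ range X, W2 f c k0 K A n + H * H + A * (H + X)) := by
    nlinarith
  exact le_of_mul_le_mul_left h6 (by positivity)

lemma Rcy_le (hf : ∀ n, f n = 1 ∨ f n = -1) (K n : ℕ) [NeZero K] (s s' : ℕ) :
    |R (cy f K n) ((s : ZMod K) - (s' : ZMod K))| ≤ 1 := by
  rw [← R_shift, sum_zmod]
  exact avg_abs _ (fun i => cy f K n ((i : ZMod K) + (s : ZMod K)) * cy f K n ((i : ZMod K) + (s' : ZMod K)))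
    (fun i => (f_abs2 hf _ _).le) K (card_range K).le

lemma VR_le (hf : ∀ n, f n = 1 ∨ f n = -1) (K A n : ℕ) [NeZero K] (hAK : A ≤ K) (s s' : ℕ)
    (hs : s < A) (hs' : s' < A) : |V f K (n + s) (n + s') - R (cy f K n) ((s : ZMod K) - (s' : ZMod K))| ≤ 2 * A / K := by
  have hK : (0 : ℝ) < K := K_pos
  have e1 : R (cy f K n) ((s : ZMod K) - (s' : ZMod K)) =
      (∑ i ∈ range K, cy f K n ((i : ZMod K) + (s : ZMod K)) * cy f K n ((i : ZMod K) + (s' : ZMod K))) / K := by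
    rw [← R_shift, sum_zmod]
  rw [e1]
  unfold V
  rw [← sub_div, ← sum_sub_distrib, abs_div, abs_of_pos hK]
  apply div_le_div_of_nonneg_right _ hK.le
  have e3 : ∀ i ∈ range K, |f (n + s + i) * f (n + s' + i) -
      cy f K n ((i : ZMod K) + (s : ZMod K)) * cy f K n ((i : ZMod K) + (s' : ZMod K))| ≤
      if i ∈ Ico (K - A) K then 2 else 0 := by
    intro i hi
    rw [mem_range] at hi
    by_cases h : i ∈ Ico (K - A) K
    · rw [if_pos h]
      have a1 := f_abs2 hf (n + s + i) (n + s' + i)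
      have a2 : |cy f K n ((i : ZMod K) + (s : ZMod K)) * cy f K n ((i : ZMod K) + (s' : ZMod K))| = 1 := by
        unfold cy
        exact f_abs2 hf _ _
      refine (abs_sub _ _).trans ?_
      linarith
    · rw [if_neg h]
      rw [mem_Ico] at h
      have b1 : i + s < K := by omega
      have b2 : i + s' < K := by omega
      rw [← Nat.cast_add, ← Nat.cast_add, cy_cast K n (i + s) b1, cy_cast K n (i + s') b2]
      rw [show n + s + i = n + (i + s) by ring, show n + s' + i = n + (i + s') by ring, sub_self, abs_zero]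
  refine (abs_sum_le_sum_abs _ _).trans ((sum_le_sum e3).trans ?_)
  rw [← sum_filter]
  have e4 : (range K).filter (fun i => i ∈ Ico (K - A) K) = Ico (K - A) K := by
    ext i
    simp only [mem_filter, mem_range, mem_Ico]
    omega
  rw [e4, sum_const, Nat.card_Ico, nsmul_eq_mul]
  have : (K - (K - A) : ℕ) = A := by omega
  rw [this]
  linarith

/-- step 6 -/
lemma step6' (h : Good c k0 I L) (hf : ∀ n, f n = 1 ∨ f n = -1) (K A n : ℕ) [NeZero K] (hA : 1 ≤ A) (hAK : A ≤ K) :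
    W2 f c k0 K A n ≤ (∑ s ∈ range A, ∑ s' ∈ range A, ps c k0 (R (cy f K n) ((s : ZMod K) - (s' : ZMod K)))) / (A : ℝ) ^ 2 +
      k0 * (2 * A / K) := by
  have hA0 : (0 : ℝ) < A := by exact_mod_cast hA
  have h1 : ∀ s ∈ range A, ∀ s' ∈ range A,
      ps c k0 (V f K (n + s) (n + s')) ≤ ps c k0 (R (cy f K n) ((s : ZMod K) - (s' : ZMod K))) + k0 * (2 * A / K) := by
    intro s hs s' hs'
    rw [mem_range] at hs hs'
    have e6 := (abs_le.1 (ps_lip h _ _ (V_abs hf K (n + s) (n + s')) (Rcy_le hf K n s s'))).2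
    have e7 : (k0 : ℝ) * |V f K (n + s) (n + s') - R (cy f K n) ((s : ZMod K) - (s' : ZMod K))| ≤ k0 * (2 * A / K) :=
      mul_le_mul_of_nonneg_left (VR_le hf K A n hAK s s' hs hs') (Nat.cast_nonneg _)
    linarith
  unfold W2
  have h2 := sum_le_sum fun s hs => sum_le_sum fun s' hs' => h1 s hs s' hs'
  simp only [sum_add_distrib, sum_const, card_range, nsmul_eq_mul] at h2
  rw [div_add' _ _ _ (by positivity : ((A : ℝ) ^ 2) ≠ 0)]
  apply div_le_div_of_nonneg_right _ (by positivity)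
  linarith

/-- **the bound for a sequence** with all the parameters -/
theorem seq' (h : Good c k0 I L) (hf : ∀ n, f n = 1 ∨ f n = -1) (Q N0 A K H X p : ℕ) [Fact p.Prime]
    (hQ : 26 * (k0 + 1) ≤ Q) (η w : ℝ) (hη : 0 < η) (hN0 : 1 / η ≤ N0) (hw : 0 < w)
    (hw2 : 4 * ((Q : ℝ) ^ N0 * p) * w ≤ 1 / Q) (hA : 1 ≤ A) (hAK : A ≤ K) (hpK : Q ^ N0 * p ≤ K) (hH : 1 ≤ H) :
    ∑ n ∈ range X, ∑ a ∈ Icc 1 H, ps c k0 (S f H n a) ≤
      X * H * (I + 1 / (4 * (A : ℝ) ^ 2 * w ^ 2) + k0 * η + 26 * k0 / Q + (L + k0) / p) +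
      k0 * H * ∑ m ∈ Icc 1 (Q ^ N0), ∑ n ∈ range X, avn f m p n ^ 2 +
      (k0 * H * (Q : ℝ) ^ N0 * (K + X * ((Q : ℝ) ^ N0 * p / K)) + X * H * (k0 * (2 * A / K)) + 2 * H * H + A * (H + X) +
        X * H * (k0 * (2 * K / H))) := by
  have hK1 : 1 ≤ K := hA.trans hAK
  haveI : NeZero K := ⟨by omega⟩
  have hK : (0 : ℝ) < K := K_pos
  have hH0 : (0 : ℝ) < H := by exact_mod_cast hH
  have h3 := step3' h hf K H X hK1 hH
  have h4 := step4' h hf K H X A hA
  have h6 : ∑ n ∈ range X, W2 f c k0 K A n ≤ X * (I + 1 / (4 * (A : ℝ) ^ 2 * w ^ 2) + k0 * η + 26 * k0 / Q + (L + k0) / p) +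
      k0 * ∑ m ∈ Icc 1 (Q ^ N0), ∑ n ∈ range X, (∑ y, av (cy f K n) m p y ^ 2) / K + X * (k0 * (2 * A / K)) := by
    have e1 : ∀ n ∈ range X, W2 f c k0 K A n ≤ (I + 1 / (4 * (A : ℝ) ^ 2 * w ^ 2) + k0 * η + 26 * k0 / Q + (L + k0) / p) +
        k0 * ∑ m ∈ Icc 1 (Q ^ N0), (∑ y, av (cy f K n) m p y ^ 2) / K + k0 * (2 * A / K) := by
      intro n _
      have := step6' h hf K A n hA hAK
      have h2 := window2 (p := p) h (cy f K n) (cy_pm hf K n) Q N0 A hQ η w hη hN0 hw hw2 hA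
      linarith
    refine (sum_le_sum e1).trans (le_of_eq ?_)
    simp only [sum_add_distrib, sum_const, card_range, nsmul_eq_mul, ← mul_sum]
    rw [sum_comm]
    ring
  have h8 : ∑ m ∈ Icc 1 (Q ^ N0), ∑ n ∈ range X, (∑ y, av (cy f K n) m p y ^ 2) / K ≤
      ∑ m ∈ Icc 1 (Q ^ N0), ∑ n ∈ range X, avn f m p n ^ 2 + (Q : ℝ) ^ N0 * (K + X * ((Q : ℝ) ^ N0 * p / K)) := by
    have e1 : ∀ m ∈ Icc 1 (Q ^ N0), ∑ n ∈ range X, (∑ y, av (cy f K n) m p y ^ 2) / K ≤
        ∑ n ∈ range X, avn f m p n ^ 2 + (K + X * ((Q : ℝ) ^ N0 * p / K)) := by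
      intro m hm
      rw [mem_Icc] at hm
      have e2 : m * p ≤ K := (Nat.mul_le_mul_right p hm.2).trans hpK
      have e3 := step8 hf K X m p e2
      have e4 : (m : ℝ) ≤ (Q : ℝ) ^ N0 := by exact_mod_cast hm.2
      have e5 : (X : ℝ) * (m * p / K) ≤ X * ((Q : ℝ) ^ N0 * p / K) := by gcongr
      linarith
    refine (sum_le_sum e1).trans (le_of_eq ?_)
    simp only [sum_add_distrib, sum_const, Nat.card_Icc, Nat.add_sub_cancel, nsmul_eq_mul]
    push_cast
    ring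
  have h9 : H * ∑ n ∈ range X, W2 f c k0 K A n ≤ H * (X * (I + 1 / (4 * (A : ℝ) ^ 2 * w ^ 2) + k0 * η + 26 * k0 / Q + (L + k0) / p) +
      k0 * (∑ m ∈ Icc 1 (Q ^ N0), ∑ n ∈ range X, avn f m p n ^ 2 + (Q : ℝ) ^ N0 * (K + X * ((Q : ℝ) ^ N0 * p / K))) +
      X * (k0 * (2 * A / K))) := by
    apply mul_le_mul_of_nonneg_left _ hH0.le
    have : (k0 : ℝ) * ∑ m ∈ Icc 1 (Q ^ N0), ∑ n ∈ range X, (∑ y, av (cy f K n) m p y ^ 2) / K ≤
        k0 * (∑ m ∈ Icc 1 (Q ^ N0), ∑ n ∈ range X, avn f m p n ^ 2 + (Q : ℝ) ^ N0 * (K + X * ((Q : ℝ) ^ N0 * p / K))) :=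
      mul_le_mul_of_nonneg_left h8 (Nat.cast_nonneg _)
    linarith
  linarith

end seq

/-- **the bound for the Liouville function** -/
theorem main2 {c : ℕ → ℝ} {k : ℕ} {I L : ℝ} (h : Good c k I L) (ε : ℝ) (hε : 0 < ε) :
    ∃ C : ℕ, 1 ≤ C ∧ ∀ H X : ℕ, C ≤ H → C * H ≤ X →
      ∑ n ∈ range X, ∑ a ∈ Icc 1 H, ps c k (S lf H n a) ≤ (I + ε) * X * H := by
  have hk0 : (0 : ℝ) ≤ k := Nat.cast_nonneg k
  have hL := h.L_nonneg
  -- parameters
  set δ : ℝ := ε / (12 * (k + 1)) with hδ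
  have hδ0 : 0 < δ := by positivity
  obtain ⟨N0, hN0⟩ := exists_nat_ge (1 / δ)
  obtain ⟨q1, hq1⟩ := exists_nat_ge (26 / δ)
  set Q : ℕ := 26 * (k + 1) + q1 with hQ
  have hQ26 : 26 * (k + 1) ≤ Q := by omega
  have hQ0 : (0 : ℝ) < Q := by
    have : 0 < Q := by omega
    exact_mod_cast this
  have hQδ : 26 / (Q : ℝ) ≤ δ := by
    rw [div_le_iff₀ hQ0]
    rw [div_le_iff₀ hδ0] at hq1
    have : (q1 : ℝ) ≤ Q := by exact_mod_cast (by omega : q1 ≤ Q)
    nlinarith
  set M : ℕ := Q ^ N0 with hM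
  have hM1 : 1 ≤ M := Nat.one_le_pow _ _ (by omega)
  have hM0 : (0 : ℝ) < M := by exact_mod_cast hM1
  have hMr : (Q : ℝ) ^ N0 = M := by rw [hM]; push_cast; rfl
  obtain ⟨p₀, hp₀⟩ := mr_prog_all M (δ / M) (by positivity)
  obtain ⟨p1, hp1⟩ := exists_nat_ge ((L + k) / δ)
  obtain ⟨p, hpp, hprime⟩ := Nat.exists_infinite_primes (p₀ + p1 + 1)
  haveI : Fact p.Prime := ⟨hprime⟩
  obtain ⟨X₀, hX₀⟩ := hp₀ p (by omega)
  have hp0 : (0 : ℝ) < p := by exact_mod_cast hprime.pos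
  have hpδ : (L + k) / (p : ℝ) ≤ δ := by
    rw [div_le_iff₀ hp0]
    rw [div_le_iff₀ hδ0] at hp1
    have : (p1 : ℝ) ≤ p := by exact_mod_cast (by omega : p1 ≤ p)
    nlinarith
  set w : ℝ := 1 / (4 * (M * p) * Q) with hw
  have hw0 : 0 < w := by positivity
  have hw2 : 4 * ((Q : ℝ) ^ N0 * p) * w ≤ 1 / Q := by
    rw [hMr, hw]
    apply le_of_eq
    field_simp
  obtain ⟨A', hA'⟩ := exists_nat_ge ((1 / δ + 1) / w)
  set A : ℕ := A' + 1 with hA
  have hA1 : 1 ≤ A := by omega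
  have hA0 : (0 : ℝ) < A := by exact_mod_cast hA1
  have hAw : 1 / (4 * (A : ℝ) ^ 2 * w ^ 2) ≤ δ := by
    rw [div_le_iff₀ (by positivity)]
    rw [div_le_iff₀ hw0] at hA'
    have h1 : (A' : ℝ) ≤ A := by exact_mod_cast (by omega : A' ≤ A)
    have h2 : 1 / δ + 1 ≤ A * w := hA'.trans (mul_le_mul_of_nonneg_right h1 hw0.le)
    have h3 : 0 < 1 / δ := by positivity
    have h4 : (1 / δ + 1) * 1 ≤ (A * w) * (A * w) := mul_le_mul h2 (by linarith) zero_le_one (by positivity)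
    have h5 : δ * (1 / δ) = 1 := by field_simp
    nlinarith
  obtain ⟨K', hK'⟩ := exists_nat_ge (2 * A / δ + M * (M * p) / δ)
  set K : ℕ := K' + A + M * p with hK
  have hAK : A ≤ K := by omega
  have hpK : M * p ≤ K := by omega
  have hK0 : (0 : ℝ) < K := by
    have : 0 < K := by omega
    exact_mod_cast this
  have hKK : 2 * A / δ + M * (M * p) / δ ≤ K := hK'.trans (by exact_mod_cast (by omega : K' ≤ K))
  have hKa : 2 * (A : ℝ) / K ≤ δ := by
    rw [div_le_iff₀ hK0]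
    have h1 : 2 * (A : ℝ) / δ ≤ K := by
      have : (0 : ℝ) ≤ M * (M * p) / δ := by positivity
      linarith
    rw [div_le_iff₀ hδ0] at h1
    linarith
  have hKm : (M : ℝ) * (M * p / K) ≤ δ := by
    have h1 : (M : ℝ) * (M * p) / δ ≤ K := by
      have : (0 : ℝ) ≤ 2 * A / δ := by positivity
      linarith
    rw [div_le_iff₀ hδ0] at h1
    rw [← mul_div_assoc, div_le_iff₀ hK0]
    linarith
  obtain ⟨C', hC'⟩ := exists_nat_ge (2 * K / δ + A / δ + M * K / δ + 2 / δ)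
  set C : ℕ := C' + X₀ + 1 with hC
  refine ⟨C, by omega, fun H X hH hX => ?_⟩
  have hCC : 2 * K / δ + A / δ + M * K / δ + 2 / δ ≤ C := hC'.trans (by exact_mod_cast (by omega : C' ≤ C))
  have hH1 : 1 ≤ H := by omega
  have hCX : C ≤ X := (Nat.le_mul_of_pos_right C (by omega)).trans hX
  have hHr : (C : ℝ) ≤ H := by exact_mod_cast hH
  have hXr : (C : ℝ) * H ≤ X := by exact_mod_cast hX
  have hCXr : (C : ℝ) ≤ X := by exact_mod_cast hCX
  have hH0 : (0 : ℝ) < H := by exact_mod_cast hH1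
  have hX0 : (0 : ℝ) < X := by
    have : 0 < X := by omega
    exact_mod_cast this
  have g1 : (0 : ℝ) ≤ 2 * K / δ := by positivity
  have g2 : (0 : ℝ) ≤ A / δ := by positivity
  have g3 : (0 : ℝ) ≤ M * K / δ := by positivity
  have g4 : (0 : ℝ) ≤ 2 / δ := by positivity
  have key := seq' (f := lf) h lf_pm Q N0 A K H X p hQ26 δ w hδ0 hN0 hw0 hw2 hA1 hAK hpK hH1
  rw [hMr] at key
  have hsum : ∑ m ∈ Icc 1 (Q ^ N0), ∑ n ∈ range X, avn lf m p n ^ 2 ≤ δ * X := by
    have h1 : ∀ m ∈ Icc 1 (Q ^ N0), ∑ n ∈ range X, avn lf m p n ^ 2 ≤ δ / M * X := fun m hm =>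
      hX₀ X (by omega) m hm
    refine (sum_le_sum h1).trans (le_of_eq ?_)
    rw [sum_const, Nat.card_Icc, Nat.add_sub_cancel, nsmul_eq_mul, ← hM]
    field_simp
  have hXH : (0 : ℝ) < X * H := by positivity
  -- the error terms
  have t1 : (X : ℝ) * H * (I + 1 / (4 * (A : ℝ) ^ 2 * w ^ 2) + k * δ + 26 * k / Q + (L + k) / p) ≤
      X * H * (I + δ + k * δ + k * δ + δ) := by
    apply mul_le_mul_of_nonneg_left _ hXH.le
    have e1 : 26 * (k : ℝ) / Q ≤ k * δ := by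
      have : 26 * (k : ℝ) / Q = k * (26 / Q) := by ring
      rw [this]
      exact mul_le_mul_of_nonneg_left hQδ hk0
    linarith
  have t2 : (k : ℝ) * H * ∑ m ∈ Icc 1 (Q ^ N0), ∑ n ∈ range X, avn lf m p n ^ 2 ≤ X * H * (k * δ) := by
    have := mul_le_mul_of_nonneg_left hsum (by positivity : (0 : ℝ) ≤ k * H)
    linarith
  have t3 : (k : ℝ) * H * M * (K + X * (M * p / K)) ≤ X * H * (k * δ + k * δ) := by
    have e1 : (M : ℝ) * K ≤ X * δ := by
      have : (M : ℝ) * K / δ ≤ X := by linarith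
      rwa [div_le_iff₀ hδ0] at this
    have e2 : (M : ℝ) * (X * (M * p / K)) ≤ X * δ := by
      have := mul_le_mul_of_nonneg_left hKm hX0.le
      linarith
    have e3 : (k : ℝ) * H * M * (K + X * (M * p / K)) = (k * H) * (M * K + M * (X * (M * p / K))) := by ring
    rw [e3]
    have := mul_le_mul_of_nonneg_left (add_le_add e1 e2) (by positivity : (0 : ℝ) ≤ k * H)
    linarith
  have t4 : (X : ℝ) * H * (k * (2 * A / K)) ≤ X * H * (k * δ) := by
    apply mul_le_mul_of_nonneg_left _ hXH.le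
    exact mul_le_mul_of_nonneg_left hKa hk0
  have t5 : (2 : ℝ) * H * H ≤ X * H * δ := by
    have e1 : 2 / δ * H ≤ X := by
      have : 2 / δ * H ≤ C * H := mul_le_mul_of_nonneg_right (by linarith) hH0.le
      linarith
    have e2 : 2 * (H : ℝ) ≤ X * δ := by
      have := mul_le_mul_of_nonneg_right e1 hδ0.le
      have e3 : 2 / δ * H * δ = 2 * H := by field_simp
      linarith
    have e4 := mul_le_mul_of_nonneg_right e2 hH0.le
    linarith
  have t6 : (A : ℝ) * (H + X) ≤ X * H * (δ + δ) := by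
    have e1 : (A : ℝ) ≤ X * δ := by
      have : (A : ℝ) / δ ≤ X := by linarith
      rwa [div_le_iff₀ hδ0] at this
    have e2 : (A : ℝ) ≤ H * δ := by
      have : (A : ℝ) / δ ≤ H := by linarith
      rwa [div_le_iff₀ hδ0] at this
    have e3 := mul_le_mul_of_nonneg_right e1 hH0.le
    have e4 := mul_le_mul_of_nonneg_right e2 hX0.le
    linarith
  have t7 : (X : ℝ) * H * (k * (2 * K / H)) ≤ X * H * (k * δ) := by
    apply mul_le_mul_of_nonneg_left _ hXH.le
    apply mul_le_mul_of_nonneg_left _ hk0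
    rw [div_le_iff₀ hH0]
    have : 2 * (K : ℝ) / δ ≤ H := by linarith
    rw [div_le_iff₀ hδ0] at this
    linarith
  have hfin : X * H * (I + δ + k * δ + k * δ + δ) + X * H * (k * δ) + (X * H * (k * δ + k * δ) + X * H * (k * δ) +
      X * H * δ + X * H * (δ + δ) + X * H * (k * δ)) ≤ (I + ε) * X * H := by
    have e1 : 7 * (k * δ) + 5 * δ ≤ ε := by
      rw [hδ]
      have : 7 * ((k : ℝ) * (ε / (12 * (k + 1)))) + 5 * (ε / (12 * (k + 1))) = ε * ((7 * k + 5) / (12 * (k + 1))) := by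
        field_simp
      rw [this]
      have : (7 * (k : ℝ) + 5) / (12 * (k + 1)) ≤ 1 := by
        rw [div_le_one (by positivity)]
        linarith
      nlinarith
    have e2 := mul_le_mul_of_nonneg_left e1 hXH.le
    linarith
  linarith

end Pool.Agent.R509.CE
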